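import Mathlib

namespace Pool.Agent.Results.MP_9d9710_co.Plane

/-- `y ∈ P = {1, ..., (p-1)/2}`. -/
def InP (p : ℕ) (y : ZMod p) : Prop := 1 ≤ y.val ∧ y.val ≤ (p - 1) / 2

/-- `S`: the images of `S₀ = {(0, y, z) : y ∈ P, -z ∈ P}` under coordinate permutations. -/
def S (p : ℕ) : Set (Fin 3 → ZMod p) :=
  {x | ∃ σ : Equiv.Perm (Fin 3), x (σ 0) = 0 ∧ InP p (x (σ 1)) ∧ InP p (-x (σ 2))}

/-- No difference of two elements of `A` lies in `S`. -/
def SFree (p : ℕ) (A : Finset (Fin 3 → ZMod p)) : Prop := ∀ a ∈ A, ∀ b ∈ A, a - b ∉ S p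

theorem plane (p : ℕ) [Fact p.Prime] :
    ∃ A : Finset (Fin 3 → ZMod p), SFree p A ∧ A.card = p ^ 2 := by
  refine ⟨Finset.univ.image fun t : ZMod p × ZMod p => ![t.1, t.1, t.2], ?_, ?_⟩
  · intro a ha b hb
    obtain ⟨s, -, rfl⟩ := Finset.mem_image.1 ha
    obtain ⟨t, -, rfl⟩ := Finset.mem_image.1 hb
    rintro ⟨σ, h0, h1, h2⟩
    have z : ¬ InP p 0 := fun h => by simp [InP] at h
    have w : ∀ y : ZMod p, InP p y → ¬ InP p (-y) := by
      rintro y ⟨a1, a2⟩ ⟨b1, b2⟩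
      have hy : y ≠ 0 := by rintro rfl; simp at a1
      rw [ZMod.neg_val, if_neg hy] at b2
      omega
    set x : Fin 3 → ZMod p := ![s.1, s.1, s.2] - ![t.1, t.1, t.2] with hx
    have e : x 0 = x 1 := by simp [hx]
    have n01 : σ 0 ≠ σ 1 := σ.injective.ne (by decide)
    have n02 : σ 0 ≠ σ 2 := σ.injective.ne (by decide)
    have n12 : σ 1 ≠ σ 2 := σ.injective.ne (by decide)
    have key : ∀ i j k : Fin 3, i ≠ j → i ≠ k → j ≠ k → x i = x j ∨ x i = x k ∨ x j = x k := by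
      intro i j k
      fin_cases i <;> fin_cases j <;> fin_cases k <;> simp [e]
    rcases key _ _ _ n01 n02 n12 with h | h | h
    · exact z (by rwa [← h, h0] at h1)
    · exact z (by rwa [← h, h0, neg_zero] at h2)
    · exact w _ h1 (by rwa [h])
  · rw [Finset.card_image_of_injective]
    · simp [sq]
    · intro s t h
      exact Prod.ext (congrFun h 0) (congrFun h 2)

theorem result : ¬ ∃ δ : ℝ, 0 < δ ∧ ∃ p₀ : ℕ, ∀ p : ℕ, p.Prime → p₀ ≤ p →
    ∀ A : Finset (Fin 3 → ZMod p), SFree p A → (A.card : ℝ) ≤ (p : ℝ) ^ (2 - δ) := by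
  rintro ⟨δ, hδ, p₀, h⟩
  obtain ⟨p, hp0, hp⟩ := Nat.exists_infinite_primes p₀
  haveI := Fact.mk hp
  obtain ⟨A, hA, hc⟩ := plane p
  have h1 : (1 : ℝ) < p := by exact_mod_cast hp.one_lt
  have h2 := h p hp hp0 A hA
  have h3 : (p : ℝ) ^ (2 - δ) < (p : ℝ) ^ (2 : ℝ) :=
    Real.rpow_lt_rpow_of_exponent_lt h1 (by linarith)
  rw [hc] at h2
  rw [Real.rpow_two] at h3
  push_cast at h2
  linarith

end Pool.Agent.Results.MP_9d9710_co.Plane
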